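import Pool.Agent.R812.JonesTMain

/-!
# If Jones's set function T is continuous and some T(p) has interior, then S is indecomposable
-/

set_option autoImplicit false

open Set Topology TopologicalSpace

namespace Pool.Agent.Results.MP_3a3191_gt.Indecomposable

open Pool.Agent.R812.Cont Pool.Agent.R812.JonesT

universe u

/-- Affirmative answer. Let `S` be a continuum (compact connected Hausdorff space) for which
Jones's set function `T` is continuous, and let `T(p)` have nonempty interior for some point `p`.
Then `S` is indecomposable: it is not the union of two proper subcontinua. -/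
theorem result (S : Type u) [TopologicalSpace S] [CompactSpace S] [T2Space S] [ConnectedSpace S]
    (hT : TContinuous S) (p : S) (hp : (interior (jonesT ({p} : Set S))).Nonempty) :
    ¬ ∃ A B : Set S, IsSubcontinuum A ∧ IsSubcontinuum B ∧ A ≠ univ ∧ B ≠ univ ∧
      A ∪ B = univ := by
  rintro ⟨A, B, hA, hB, hAne, hBne, hAB⟩
  exact indecomposable hT p hp hA hB hAne hBne hAB

end Pool.Agent.Results.MP_3a3191_gt.Indecomposable
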